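import Pool.Agent.Lib.MP_5d0ca0_al.Ins.Tree
import Pool.Agent.Lib.MP_5d0ca0_al.Wilson

set_option autoImplicit false
open scoped Topology Pointwise

namespace Pool.Agent.Lib.MP_5d0ca0_al.Ins

open Gam

variable {q : ℕ}

/-! arithmetic of the index set -/

theorem n10 : (1 : Fin (q + 3)) ≠ 0 := by
  intro h
  have := congrArg Fin.val h
  simp at this

theorem n20 : (2 : Fin (q + 3)) ≠ 0 := by
  intro h
  have h1 := congrArg Fin.val h
  have h2 : ((2 : Fin (q + 3)) : ℕ) = 2 := by
    rw [Fin.val_two]
  rw [h2] at h1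
  simp at h1

theorem e01 : (0 : Fin (q + 3)) ≠ -1 := fun h => n10 (q := q) (by
  have := congrArg (fun z => z + 1) h
  simpa using this)

theorem e02 : (0 : Fin (q + 3)) ≠ -2 := fun h => n20 (q := q) (by
  have := congrArg (fun z => z + 2) h
  simpa using this)

theorem one_add_one' : (1 : Fin (q + 3)) + 1 = 2 := by
  apply Fin.ext
  rw [Fin.val_add, Fin.val_two, Fin.val_one]
  exact Nat.mod_eq_of_lt (by omega)

theorem e12 : (-1 : Fin (q + 3)) ≠ -2 := fun h => n10 (q := q) (by
  have h1 := congrArg (fun z => z + 2) h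
  simp only [neg_add_cancel] at h1
  rw [← one_add_one', ← add_assoc, neg_add_cancel, zero_add] at h1
  exact h1)

theorem e1m : (1 : Fin (q + 3)) ≠ -1 := fun h => n20 (q := q) (by
  have h1 := congrArg (fun z => z + 1) h
  simp only [neg_add_cancel] at h1
  rwa [one_add_one'] at h1)

theorem m1m1 : (-1 : Fin (q + 3)) - 1 = -2 := by
  rw [← one_add_one', neg_add, sub_eq_add_neg]

theorem m2p1 : (-2 : Fin (q + 3)) + 1 = -1 := by
  rw [← one_add_one', neg_add, add_assoc, neg_add_cancel, add_zero]

/-! generators -/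

/-- rooted rotation -/
def ga : Gam q := mk 1 (fun _ => 1)

/-- portrait of the first directed generator -/
def xFun : List (Fin (q + 3)) → Fin (q + 3)
  | [] => 0
  | i :: w => if i = 0 then ev ga w else if i = -1 then xFun w else 0

/-- portrait of the second directed generator -/
def yFun : List (Fin (q + 3)) → Fin (q + 3)
  | [] => 0
  | i :: w => if i = -2 then ev ga w else if i = -1 then yFun w else 0

/-- first directed generator -/
def gx : Gam q := xFun
/-- second directed generator -/
def gy : Gam q := yFun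

@[simp] theorem root_ga : root (ga : Gam q) = 1 := rfl
@[simp] theorem sec_ga (i : Fin (q + 3)) : sec (ga : Gam q) i = 1 := rfl
@[simp] theorem root_gx : root (gx : Gam q) = 0 := rfl
@[simp] theorem root_gy : root (gy : Gam q) = 0 := rfl
theorem sec_gx (i : Fin (q + 3)) :
    sec (gx : Gam q) i = if i = 0 then ga else if i = -1 then gx else 1 := by
  apply ext_ev
  intro w
  show (if i = 0 then ev ga w else if i = -1 then xFun w else 0) = _
  split_ifs <;> rfl
theorem sec_gy (i : Fin (q + 3)) :
    sec (gy : Gam q) i = if i = -2 then ga else if i = -1 then gy else 1 := by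
  apply ext_ev
  intro w
  show (if i = -2 then ev ga w else if i = -1 then yFun w else 0) = _
  split_ifs <;> rfl

@[simp] theorem sec_gx0 : sec (gx : Gam q) 0 = ga := by rw [sec_gx, if_pos rfl]
@[simp] theorem sec_gx1 : sec (gx : Gam q) 1 = 1 := by rw [sec_gx, if_neg n10, if_neg e1m]
@[simp] theorem sec_gxm : sec (gx : Gam q) (-1) = gx := by
  rw [sec_gx, if_neg e01.symm, if_pos rfl]
@[simp] theorem sec_gxm2 : sec (gx : Gam q) (-2) = 1 := by
  rw [sec_gx, if_neg e02.symm, if_neg e12.symm]
@[simp] theorem sec_gy0 : sec (gy : Gam q) 0 = 1 := by rw [sec_gy, if_neg e02, if_neg e01]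
@[simp] theorem sec_gym : sec (gy : Gam q) (-1) = gy := by
  rw [sec_gy, if_neg e12, if_pos rfl]
@[simp] theorem sec_gym2 : sec (gy : Gam q) (-2) = ga := by rw [sec_gy, if_pos rfl]

theorem ga_pow : (ga : Gam q) ^ (q + 3) = 1 := by
  have h : ∀ n : ℕ, ∀ i, sec ((ga : Gam q) ^ n) i = 1 := by
    intro n
    induction n with
    | zero => intro i; rfl
    | succ n ih => intro i; rw [pow_succ, sec_mul, ih, sec_ga, mul_one]
  apply ext'
  · rw [pow_root, q_nsmul, root_one]
  · intro i
    rw [h, sec_one]

theorem gx_pow : (gx : Gam q) ^ (q + 3) = 1 := by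
  apply ext_ev
  intro w
  induction w with
  | nil => rw [nil_apply, nil_apply, pow_root, q_nsmul, root_one]
  | cons i w ih =>
    rw [cons_apply, cons_apply, pow_sec root_gx, sec_one, sec_gx]
    split_ifs
    · rw [ga_pow]
    · exact ih
    · rw [one_pow]

theorem gy_pow : (gy : Gam q) ^ (q + 3) = 1 := by
  apply ext_ev
  intro w
  induction w with
  | nil => rw [nil_apply, nil_apply, pow_root, q_nsmul, root_one]
  | cons i w ih =>
    rw [cons_apply, cons_apply, pow_sec root_gy, sec_one, sec_gy]
    split_ifs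
    · rw [ga_pow]
    · exact ih
    · rw [one_pow]

theorem gx_gy : (gx : Gam q) * gy = gy * gx := by
  apply ext_ev
  intro w
  induction w with
  | nil => rfl
  | cons i w ih =>
    rw [cons_apply, cons_apply, sec_mul, sec_mul, root_gx, root_gy, add_zero]
    by_cases h0 : i = 0
    · subst h0
      simp
    · by_cases h1 : i = -1
      · subst h1
        simpa using ih
      · rw [sec_gx, if_neg h0, if_neg h1, one_mul, mul_one]

/-- first basic commutator -/
def cx : Gam q := ga * gx * ga⁻¹ * gx⁻¹
/-- second basic commutator -/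
def cy : Gam q := ga * gy * ga⁻¹ * gy⁻¹

theorem iota_cx : gx * cx * gx⁻¹ * cx⁻¹ = iota (q := q) 0 cx := by
  have h1 : gx * cx * gx⁻¹ * cx⁻¹ = (gx : Gam q) * (ga * gx * ga⁻¹) * gx⁻¹ * (ga * gx * ga⁻¹)⁻¹ := by
    unfold cx; group
  rw [h1]
  apply ext'
  · simp
  · intro i
    by_cases h0 : i = 0
    · subst h0
      simp [cx, mul_assoc]
    · have h2 : sec (iota (q := q) 0 cx) i = 1 := by rw [sec_iota, if_neg h0]
      rw [h2]
      by_cases h3 : i = 1
      · subst h3
        simp
      · have h4 : i + -1 ≠ 0 := fun h => h3 (by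
          have := congrArg (fun z => z + 1) h
          simpa using this)
        have h5 : i + -1 ≠ -1 := fun h => h0 (by
          have := congrArg (fun z => z + 1) h
          simpa using this)
        have h6 : sec (gx : Gam q) (i + -1) = 1 := by rw [sec_gx, if_neg h4, if_neg h5]
        have h7 : sec (gx : Gam q) (i - 1) = 1 := by rw [sub_eq_add_neg]; exact h6
        simp [h6, h7]

theorem iota_cy : gy * cy * gy⁻¹ * cy⁻¹ = iota (q := q) (-1) cy⁻¹ := by
  have h1 : gy * cy * gy⁻¹ * cy⁻¹ = (gy : Gam q) * (ga * gy * ga⁻¹) * gy⁻¹ * (ga * gy * ga⁻¹)⁻¹ := by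
    unfold cy; group
  rw [h1]
  apply ext'
  · simp
  · intro i
    by_cases h0 : i = -1
    · subst h0
      have h8 : (-1 : Fin (q + 3)) + -1 = -2 := by rw [← sub_eq_add_neg, m1m1]
      simp [cy, mul_assoc, h8, m1m1]
    · have h2 : sec (iota (q := q) (-1) cy⁻¹) i = 1 := by rw [sec_iota, if_neg h0]
      rw [h2]
      by_cases h3 : i = 0
      · subst h3
        simp
      · have h4 : i + -1 ≠ -2 := fun h => h0 (by
          have := congrArg (fun z => z + 1) h
          simp only [neg_add_cancel_right, m2p1] at this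
          exact this)
        have h5 : i + -1 ≠ -1 := fun h => h3 (by
          have := congrArg (fun z => z + 1) h
          simpa using this)
        have h6 : sec (gy : Gam q) (i + -1) = 1 := by rw [sec_gy, if_neg h4, if_neg h5]
        have h7 : sec (gy : Gam q) (i - 1) = 1 := by rw [sub_eq_add_neg]; exact h6
        simp [h6, h7]

theorem conj_ga (i : Fin (q + 3)) (P : Gam q) : ga * iota i P * ga⁻¹ = iota (i + 1) P := by
  rw [conj_iota]
  simp

/-! the groups -/

/-- the group -/
def GG : Subgroup (Gam q) := (Subgroup.closure {ga, gx, gy}).topologicalClosure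

/-- conjugates of the basic commutators -/
def KS : Set (Gam q) := {h | ∃ g ∈ GG, h = g * cx * g⁻¹ ∨ h = g * cy * g⁻¹}

/-- the branching subgroup -/
def KK : Subgroup (Gam q) := (Subgroup.closure KS).topologicalClosure

theorem GG_closed : IsClosed ((GG : Subgroup (Gam q)) : Set (Gam q)) := Subgroup.isClosed_topologicalClosure _
theorem KK_closed : IsClosed ((KK : Subgroup (Gam q)) : Set (Gam q)) := Subgroup.isClosed_topologicalClosure _

theorem GG_le {T : Subgroup (Gam q)} (hT : IsClosed (T : Set (Gam q))) (h1 : ga ∈ T) (h2 : gx ∈ T)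
    (h3 : gy ∈ T) : GG ≤ T := by
  apply Subgroup.topologicalClosure_minimal _ _ hT
  rw [Subgroup.closure_le]
  intro g hg
  simp only [Set.mem_insert_iff, Set.mem_singleton_iff] at hg
  rcases hg with rfl | rfl | rfl
  · exact h1
  · exact h2
  · exact h3

theorem KK_le {T : Subgroup (Gam q)} (hT : IsClosed (T : Set (Gam q)))
    (h1 : ∀ g ∈ GG, g * cx * g⁻¹ ∈ T) (h2 : ∀ g ∈ GG, g * cy * g⁻¹ ∈ T) : KK ≤ T := by
  apply Subgroup.topologicalClosure_minimal _ _ hT
  rw [Subgroup.closure_le]
  rintro h ⟨g, hg, rfl | rfl⟩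
  · exact h1 g hg
  · exact h2 g hg

theorem ga_mem : (ga : Gam q) ∈ GG :=
  Subgroup.le_topologicalClosure _ (Subgroup.subset_closure (by simp))
theorem gx_mem : (gx : Gam q) ∈ GG :=
  Subgroup.le_topologicalClosure _ (Subgroup.subset_closure (by simp))
theorem gy_mem : (gy : Gam q) ∈ GG :=
  Subgroup.le_topologicalClosure _ (Subgroup.subset_closure (by simp))

theorem cx_mem_GG : (cx : Gam q) ∈ GG :=
  mul_mem (mul_mem (mul_mem ga_mem gx_mem) (inv_mem ga_mem)) (inv_mem gx_mem)
theorem cy_mem_GG : (cy : Gam q) ∈ GG :=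
  mul_mem (mul_mem (mul_mem ga_mem gy_mem) (inv_mem ga_mem)) (inv_mem gy_mem)

theorem KK_le_GG : (KK : Subgroup (Gam q)) ≤ GG := by
  apply KK_le GG_closed
  · intro g hg
    exact mul_mem (mul_mem hg cx_mem_GG) (inv_mem hg)
  · intro g hg
    exact mul_mem (mul_mem hg cy_mem_GG) (inv_mem hg)

theorem conj_cx_mem {g : (Gam q)} (hg : g ∈ GG) : g * cx * g⁻¹ ∈ KK :=
  Subgroup.le_topologicalClosure _ (Subgroup.subset_closure ⟨g, hg, Or.inl rfl⟩)
theorem conj_cy_mem {g : (Gam q)} (hg : g ∈ GG) : g * cy * g⁻¹ ∈ KK :=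
  Subgroup.le_topologicalClosure _ (Subgroup.subset_closure ⟨g, hg, Or.inr rfl⟩)
theorem cx_mem : (cx : Gam q) ∈ KK := by
  have := conj_cx_mem (one_mem (GG : Subgroup (Gam q)))
  simpa using this
theorem cy_mem : (cy : Gam q) ∈ KK := by
  have := conj_cy_mem (one_mem (GG : Subgroup (Gam q)))
  simpa using this

theorem comap_conj_closed (g : (Gam q)) {T : Subgroup (Gam q)} (hT : IsClosed (T : Set (Gam q))) :
    IsClosed ((T.comap (MulAut.conj g).toMonoidHom : Subgroup (Gam q)) : Set (Gam q)) := by
  have : ((T.comap (MulAut.conj g).toMonoidHom : Subgroup (Gam q)) : Set (Gam q))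
      = (fun y => g * y * g⁻¹) ⁻¹' (T : Set (Gam q)) := by
    ext y
    simp [Subgroup.mem_comap]
  rw [this]
  exact hT.preimage (by fun_prop)

theorem KK_conj {g : (Gam q)} (hg : g ∈ GG) {k : (Gam q)} (hk : k ∈ KK) : g * k * g⁻¹ ∈ KK := by
  have h1 : (KK : Subgroup (Gam q)) ≤ KK.comap (MulAut.conj g).toMonoidHom := by
    apply KK_le (comap_conj_closed g KK_closed)
    · intro h hh
      rw [Subgroup.mem_comap]
      have : (MulAut.conj g).toMonoidHom (h * cx * h⁻¹) = (g * h) * cx * (g * h)⁻¹ := by
        simp; group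
      rw [this]
      exact conj_cx_mem (mul_mem hg hh)
    · intro h hh
      rw [Subgroup.mem_comap]
      have : (MulAut.conj g).toMonoidHom (h * cy * h⁻¹) = (g * h) * cy * (g * h)⁻¹ := by
        simp; group
      rw [this]
      exact conj_cy_mem (mul_mem hg hh)
  have h2 := h1 hk
  rw [Subgroup.mem_comap] at h2
  simpa using h2

/-- kernel of the root label -/
def St1 : Subgroup (Gam q) where
  carrier := {g | root g = 0}
  one_mem' := rfl
  mul_mem' := by
    intro a b ha hb
    simp only [Set.mem_ofPred_eq] at *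
    rw [root_mul, ha, hb, add_zero]
  inv_mem' := by
    intro a ha
    simp only [Set.mem_ofPred_eq] at *
    rw [root_inv, ha, neg_zero]

theorem mem_St1 {g : (Gam q)} : g ∈ St1 ↔ root g = 0 := Iff.rfl

theorem St1_closed : IsClosed ((St1 : Subgroup (Gam q)) : Set (Gam q)) := by
  have : ((St1 : Subgroup (Gam q)) : Set (Gam q)) = root ⁻¹' {0} := rfl
  rw [this]
  exact (isClosed_discrete _).preimage continuous_root

theorem KK_root {k : (Gam q)} (hk : k ∈ KK) : root k = 0 := by
  have h1 : (KK : Subgroup (Gam q)) ≤ St1 := by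
    apply KK_le St1_closed
    · intro g _
      rw [mem_St1]
      simp [cx]
    · intro g _
      rw [mem_St1]
      simp [cy]
  exact h1 hk

theorem GG_sec {g : (Gam q)} (hg : g ∈ GG) (i : Fin (q + 3)) : sec g i ∈ GG := by
  let T : Subgroup (Gam q) :=
    { carrier := {g | ∀ i, sec g i ∈ GG}
      one_mem' := by
        intro i
        rw [sec_one]
        exact one_mem _
      mul_mem' := by
        intro a b ha hb i
        rw [sec_mul]
        exact mul_mem (ha _) (hb _)
      inv_mem' := by
        intro a ha i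
        rw [sec_inv]
        exact inv_mem (ha _) }
  have hT : IsClosed (T : Set (Gam q)) := by
    have : (T : Set (Gam q)) = ⋂ i : Fin (q + 3), (fun g => sec g i) ⁻¹' ((GG : Subgroup (Gam q)) : Set (Gam q)) := by
      ext g
      simp only [Set.mem_iInter, Set.mem_preimage, SetLike.mem_coe]
      rfl
    rw [this]
    exact isClosed_iInter fun i => GG_closed.preimage (continuous_sec i)
  have h1 : (GG : Subgroup (Gam q)) ≤ T := by
    apply GG_le hT
    · intro i
      rw [sec_ga]
      exact one_mem _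
    · intro i
      rw [sec_gx]
      split_ifs
      · exact ga_mem
      · exact gx_mem
      · exact one_mem _
    · intro i
      rw [sec_gy]
      split_ifs
      · exact ga_mem
      · exact gy_mem
      · exact one_mem _
  exact h1 hg i

theorem KK_proj {g : (Gam q)} (hg : g ∈ GG) : ∃ k ∈ KK, sec k 0 = g := by
  let T : Subgroup (Gam q) :=
    { carrier := {g | ∃ k ∈ KK, sec k 0 = g}
      one_mem' := ⟨1, one_mem _, rfl⟩
      mul_mem' := by
        rintro a b ⟨k, hk, rfl⟩ ⟨l, hl, rfl⟩
        refine ⟨k * l, mul_mem hk hl, ?_⟩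
        rw [sec_mul, KK_root hl, add_zero]
      inv_mem' := by
        rintro a ⟨k, hk, rfl⟩
        refine ⟨k⁻¹, inv_mem hk, ?_⟩
        rw [sec_inv, KK_root hk, sub_zero] }
  have hT : IsClosed (T : Set (Gam q)) := by
    have : (T : Set (Gam q)) = (fun k => sec k 0) '' ((KK : Subgroup (Gam q)) : Set (Gam q)) := by
      ext g
      rfl
    rw [this]
    exact (KK_closed.isCompact.image (continuous_sec 0)).isClosed
  have h1 : (GG : Subgroup (Gam q)) ≤ T := by
    have e3 : (-1 : Fin (q + 3)) + -1 = -2 := by rw [← sub_eq_add_neg, m1m1]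
    apply GG_le hT
    · refine ⟨ga⁻¹ * cx * ga, ?_, ?_⟩
      · have := conj_cx_mem (inv_mem (ga_mem (q := q)))
        simpa using this
      · simp [cx]
    · have h2 : gx⁻¹ ∈ T := by
        refine ⟨ga * cx * ga⁻¹, conj_cx_mem ga_mem, ?_⟩
        simp [cx, e3, m1m1]
      simpa using inv_mem h2
    · refine ⟨cy, cy_mem, ?_⟩
      simp [cy]
  exact h1 hg

theorem comap_iota_closed (i : Fin (q + 3)) {T : Subgroup (Gam q)} (hT : IsClosed (T : Set (Gam q))) :
    IsClosed ((T.comap (iota i) : Subgroup (Gam q)) : Set (Gam q)) := by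
  rw [Subgroup.coe_comap]
  exact hT.preimage (continuous_iota i)

theorem comap_iotaW_closed (v : List (Fin (q + 3))) {T : Subgroup (Gam q)} (hT : IsClosed (T : Set (Gam q))) :
    IsClosed ((T.comap (iotaW v) : Subgroup (Gam q)) : Set (Gam q)) := by
  rw [Subgroup.coe_comap]
  exact hT.preimage (continuous_iotaW v)

theorem iota0_cx_mem : iota (q := q) 0 cx ∈ KK := by
  rw [← iota_cx]
  exact mul_mem (KK_conj gx_mem cx_mem) (inv_mem cx_mem)

theorem iotam_cy_mem : iota (q := q) (-1) cy ∈ KK := by
  have h : iota (q := q) (-1) cy⁻¹ ∈ KK := by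
    rw [← iota_cy]
    exact mul_mem (KK_conj gy_mem cy_mem) (inv_mem cy_mem)
  rw [map_inv] at h
  simpa using h

theorem iota0_cy_mem : iota (q := q) 0 cy ∈ KK := by
  have h := KK_conj ga_mem (iotam_cy_mem (q := q))
  rw [conj_ga] at h
  have e : (-1 : Fin (q + 3)) + 1 = 0 := neg_add_cancel 1
  rwa [e] at h

theorem iota0_mem {k : (Gam q)} (hk : k ∈ KK) : iota 0 k ∈ KK := by
  have h1 : (KK : Subgroup (Gam q)) ≤ KK.comap (iota 0) := by
    apply KK_le (comap_iota_closed 0 KK_closed)
    · intro g hg
      rw [Subgroup.mem_comap]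
      obtain ⟨h, hh, hs⟩ := KK_proj hg
      have h2 := conj_iota h 0 cx
      rw [KK_root hh, add_zero, hs] at h2
      rw [← h2]
      exact KK_conj (KK_le_GG hh) iota0_cx_mem
    · intro g hg
      rw [Subgroup.mem_comap]
      obtain ⟨h, hh, hs⟩ := KK_proj hg
      have h2 := conj_iota h 0 cy
      rw [KK_root hh, add_zero, hs] at h2
      rw [← h2]
      exact KK_conj (KK_le_GG hh) iota0_cy_mem
  exact h1 hk

theorem nsmul_val_one (j : Fin (q + 3)) : (j : ℕ) • (1 : Fin (q + 3)) = j := by
  have h : ∀ n : ℕ, ((n • (1 : Fin (q + 3)) : Fin (q + 3)) : ℕ) = n % (q + 3) := by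
    intro n
    induction n with
    | zero => rw [zero_nsmul]; simp
    | succ n ih => rw [succ_nsmul, Fin.val_add, ih, Fin.val_one, Nat.mod_add_mod]
  apply Fin.ext
  rw [h]
  exact Nat.mod_eq_of_lt j.isLt

theorem iota_mem {k : (Gam q)} (hk : k ∈ KK) (i : Fin (q + 3)) : iota i k ∈ KK := by
  have h : ∀ n : ℕ, iota (q := q) (n • (1 : Fin (q + 3))) k ∈ KK := by
    intro n
    induction n with
    | zero => rw [zero_nsmul]; exact iota0_mem hk
    | succ n ih =>
      have h1 := KK_conj ga_mem ih
      rw [conj_ga] at h1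
      rw [succ_nsmul]
      exact h1
  have h2 := h (i : ℕ)
  rwa [nsmul_val_one] at h2

theorem iotaW_mem (v : List (Fin (q + 3))) {k : (Gam q)} (hk : k ∈ KK) : iotaW v k ∈ KK := by
  induction v with
  | nil => exact hk
  | cons i v ih => exact iota_mem ih i

/-- transitivity with prescribed sections -/
theorem transitive (u : List (Fin (q + 3))) : ∀ (v : List (Fin (q + 3))) (_ : u.length = v.length)
    (g : (Gam q)) (_ : g ∈ GG), ∃ h ∈ GG, act h u = v ∧ secW h u = g := by
  induction u with
  | nil =>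
    intro v hl g hg
    have hv : v = [] := List.eq_nil_of_length_eq_zero hl.symm
    subst hv
    exact ⟨g, hg, rfl, rfl⟩
  | cons i u ih =>
    intro v hl g hg
    cases v with
    | nil => simp at hl
    | cons j v =>
      obtain ⟨h1, hh1, ha, hs⟩ := ih v (by simpa using hl) g hg
      obtain ⟨k, hk, hks⟩ := KK_proj hh1
      -- powers of the rotation
      have hrot : ∀ n : ℕ, root ((ga : Gam q) ^ n) = (n • (1 : Fin (q + 3))) ∧
          ∀ i, sec ((ga : Gam q) ^ n) i = 1 := by
        intro n
        induction n with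
        | zero => simp
        | succ n ihn =>
          refine ⟨by rw [pow_succ, root_mul, ihn.1, root_ga, succ_nsmul], ?_⟩
          intro i
          rw [pow_succ, sec_mul, sec_ga, ihn.2, mul_one]
      have hr : ∀ j : Fin (q + 3), ∃ r ∈ GG, root r = j ∧ ∀ i, sec r i = 1 := by
        intro j
        refine ⟨ga ^ (j : ℕ), pow_mem ga_mem _, ?_, (hrot _).2⟩
        rw [(hrot _).1, nsmul_val_one]
      obtain ⟨r1, hr1, hr1r, hr1s⟩ := hr (-i)
      obtain ⟨r2, hr2, hr2r, hr2s⟩ := hr j
      refine ⟨r2 * k * r1, mul_mem (mul_mem hr2 (KK_le_GG hk)) hr1, ?_, ?_⟩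
      · simp only [act, sec_mul, root_mul]
        rw [hr1r, hr2r, KK_root hk, hr1s, hr2s]
        have e : i + -i = 0 := by simp
        rw [e, hks, one_mul, mul_one, ha]
        simp
      · simp only [secW, sec_mul]
        rw [hr1r, hr1s, hr2s]
        have e : i + -i = 0 := by simp
        rw [e, hks, one_mul, mul_one, hs]

/-- products of copies of `KK` on a level -/
def KL : ℕ → Subgroup (Gam q)
  | 0 => KK
  | m + 1 =>
    { carrier := {g | root g = 0 ∧ ∀ i, sec g i ∈ KL m}
      one_mem' := ⟨rfl, fun i => by rw [sec_one]; exact one_mem _⟩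
      mul_mem' := by
        rintro a b ⟨ha, ha'⟩ ⟨hb, hb'⟩
        refine ⟨by rw [root_mul, ha, hb, add_zero], fun i => ?_⟩
        rw [sec_mul]
        exact mul_mem (ha' _) (hb' _)
      inv_mem' := by
        rintro a ⟨ha, ha'⟩
        refine ⟨by rw [root_inv, ha, neg_zero], fun i => ?_⟩
        rw [sec_inv]
        exact inv_mem (ha' _) }

theorem mem_KL_succ {m : ℕ} {g : (Gam q)} : g ∈ KL (m + 1) ↔ root g = 0 ∧ ∀ i, sec g i ∈ KL m :=
  Iff.rfl

theorem KL_closed (m : ℕ) : IsClosed ((KL m : Subgroup (Gam q)) : Set (Gam q)) := by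
  induction m with
  | zero => exact KK_closed
  | succ m ih =>
    have : ((KL (m + 1) : Subgroup (Gam q)) : Set (Gam q)) =
        ((St1 : Subgroup (Gam q)) : Set (Gam q)) ∩ ⋂ i : Fin (q + 3),
        (fun g => sec g i) ⁻¹' ((KL m : Subgroup (Gam q)) : Set (Gam q)) := by
      ext g
      simp only [Set.mem_inter_iff, Set.mem_iInter, Set.mem_preimage, SetLike.mem_coe]
      rfl
    rw [this]
    exact St1_closed.inter (isClosed_iInter fun i => ih.preimage (continuous_sec i))

theorem prod_iota (M : Subgroup (Gam q)) (s : Finset (Fin (q + 3))) : ∀ (g : Gam q)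
    (_ : root g = 0) (_ : ∀ i, iota i (sec g i) ∈ M) (_ : ∀ i, i ∉ s → sec g i = 1), g ∈ M := by
  classical
  induction s using Finset.induction_on with
  | empty =>
    intro g h0 _ h2
    have : g = 1 := by
      apply ext'
      · rw [h0, root_one]
      · intro i
        rw [h2 i (Finset.notMem_empty i), sec_one]
    rw [this]
    exact one_mem _
  | insert a s ha ih =>
    intro g h0 h1 h2
    have h3 : (iota a (sec g a))⁻¹ * g ∈ M := by
      have hs : ∀ i, sec ((iota a (sec g a))⁻¹ * g) i = if i = a then 1 else sec g i := by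
        intro i
        rw [sec_mul, h0, add_zero, sec_inv, root_iota, sub_zero, sec_iota]
        split_ifs with h
        · rw [h, inv_mul_cancel]
        · rw [inv_one, one_mul]
      apply ih
      · rw [root_mul, root_inv, root_iota, h0, neg_zero, add_zero]
      · intro i
        rw [hs]
        split_ifs
        · rw [map_one]
          exact one_mem _
        · exact h1 i
      · intro i hi
        rw [hs]
        split_ifs with h
        · rfl
        · exact h2 i (by
            rw [Finset.mem_insert]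
            rintro (h' | h')
            · exact h h'
            · exact hi h')
    have h4 := mul_mem (h1 a) h3
    rwa [mul_inv_cancel_left] at h4

theorem KL_le (m : ℕ) : ∀ (M : Subgroup (Gam q))
    (_ : ∀ u : List (Fin (q + 3)), u.length = m → ∀ k ∈ KK, iotaW u k ∈ M), KL m ≤ M := by
  induction m with
  | zero =>
    intro M hM k hk
    exact hM [] rfl k hk
  | succ m ih =>
    intro M hM g hg
    obtain ⟨h0, h1⟩ := mem_KL_succ.1 hg
    have h2 : ∀ i, iota i (sec g i) ∈ M := by
      intro i
      have h3 : KL m ≤ M.comap (iota i) := by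
        apply ih
        intro u hu k hk
        rw [Subgroup.mem_comap]
        exact hM (i :: u) (by simp [hu]) k hk
      exact h3 (h1 i)
    exact prod_iota M Finset.univ g h0 h2 (fun i hi => absurd (Finset.mem_univ i) hi)

theorem KL_le_KK (m : ℕ) : (KL m : Subgroup (Gam q)) ≤ KK := KL_le m KK fun u _ _ hk => iotaW_mem u hk

end Pool.Agent.Lib.MP_5d0ca0_al.Ins
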