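import Pool.Agent.Lib.MP_5d0ca0_al.Ins.Main

set_option autoImplicit false
open scoped Topology Pointwise

namespace Pool.Agent.Lib.MP_5d0ca0_al.Ins

open Gam

variable {q : ℕ}

theorem KL_conj (m : ℕ) : ∀ {g : Gam q} (_ : g ∈ (GG (q := q))) {x : Gam q}
    (_ : x ∈ KL (q := q) m), g * x * g⁻¹ ∈ KL (q := q) m := by
  induction m with
  | zero =>
    intro g hg x hx
    exact KK_conj hg hx
  | succ m ih =>
    intro g hg x hx
    obtain ⟨h1, h2⟩ := mem_KL_succ.1 hx
    refine mem_KL_succ.2 ⟨?_, fun i => ?_⟩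
    · rw [root_mul, root_mul, root_inv, h1, add_zero, add_neg_cancel]
    · rw [sec_mul, sec_mul, root_inv, sec_inv, h1, add_zero, ← sub_eq_add_neg]
      exact ih (GG_sec hg _) (h2 _)

theorem KL_act (u : List (Fin (q + 3))) : ∀ {x : Gam q} (_ : x ∈ KL (q := q) u.length),
    act x u = u ∧ secW x u ∈ (KK (q := q)) := by
  induction u with
  | nil =>
    intro x hx
    exact ⟨rfl, hx⟩
  | cons i u ih =>
    intro x hx
    obtain ⟨h1, h2⟩ := mem_KL_succ.1 hx
    obtain ⟨h3, h4⟩ := ih (h2 i)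
    refine ⟨?_, h4⟩
    show (i + root x) :: act (sec x i) u = i :: u
    rw [h1, add_zero, h3]

theorem iotaW_mem_KL (u : List (Fin (q + 3))) {k : Gam q} (hk : k ∈ (KK (q := q))) :
    iotaW u k ∈ KL (q := q) u.length := by
  induction u with
  | nil => exact hk
  | cons i u ih =>
    refine mem_KL_succ.2 ⟨rfl, fun j => ?_⟩
    rw [iotaW_cons, sec_iota]
    split_ifs
    · exact ih
    · exact one_mem _

theorem iotaW_mem_KL' (u : List (Fin (q + 3))) (m : ℕ) (hm : u.length = m) {k : Gam q}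
    (hk : k ∈ (KK (q := q))) : iotaW u k ∈ KL (q := q) m := by
  subst hm
  exact iotaW_mem_KL u hk

/-- the closed commutator subgroup of the branching subgroup contains a level product -/
theorem exists_KL_comm : ∃ m, ∀ M : Subgroup (Gam q), IsClosed (M : Set (Gam q)) →
    (∀ P ∈ (KK (q := q)), ∀ Q ∈ (KK (q := q)), P * Q * P⁻¹ * Q⁻¹ ∈ M) →
    KL (q := q) m ≤ M := by
  let D0 : Set (Gam q) := {h | ∃ P ∈ (KK (q := q)), ∃ Q ∈ (KK (q := q)), h = P * Q * P⁻¹ * Q⁻¹}
  let D : Subgroup (Gam q) := (Subgroup.closure D0).topologicalClosure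
  have hDc : IsClosed (D : Set (Gam q)) := Subgroup.isClosed_topologicalClosure _
  have hD0 : ∀ h ∈ D0, h ∈ D := fun h hh =>
    Subgroup.le_topologicalClosure _ (Subgroup.subset_closure hh)
  have hle : ∀ M : Subgroup (Gam q), IsClosed (M : Set (Gam q)) → (∀ h ∈ D0, h ∈ M) → D ≤ M := by
    intro M hM h
    apply Subgroup.topologicalClosure_minimal _ _ hM
    rw [Subgroup.closure_le]
    exact h
  have hn : ∀ g ∈ (GG (q := q)), ∀ m ∈ D, g * m * g⁻¹ ∈ D := by
    intro g hg m hm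
    have h1 : D ≤ D.comap (MulAut.conj g).toMonoidHom := by
      apply hle _ (comap_conj_closed g hDc)
      rintro h ⟨P, hP, Q, hQ, rfl⟩
      rw [Subgroup.mem_comap]
      apply hD0
      refine ⟨g * P * g⁻¹, KK_conj hg hP, g * Q * g⁻¹, KK_conj hg hQ, ?_⟩
      simp
      group
    have h2 := h1 hm
    rw [Subgroup.mem_comap] at h2
    simpa using h2
  have hne : D ≠ ⊥ := by
    intro h
    obtain ⟨P, hP, Q, hQ, hPQ⟩ := KK_nonabelian (q := q)
    have h1 := hD0 _ ⟨P, hP, Q, hQ, rfl⟩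
    rw [h, Subgroup.mem_bot] at h1
    apply hPQ
    have h2 : P * Q * P⁻¹ * Q⁻¹ = P * Q * (Q * P)⁻¹ := by group
    rw [h2] at h1
    exact mul_inv_eq_one.1 h1
  obtain ⟨m, hm⟩ := JI_core hDc hn hne
  refine ⟨m, fun M hM h => hm.trans (hle M hM ?_)⟩
  rintro h' ⟨P, hP, Q, hQ, rfl⟩
  exact h P hP Q hQ

/-- the double commutator argument -/
theorem double_comm {X Y : Subgroup (Gam q)} (hn : ∀ g ∈ X, ∀ m ∈ Y, g * m * g⁻¹ ∈ Y)
    {g : Gam q} (hg : g ∈ Y) {v : List (Fin (q + 3))} (hv : act g v ≠ v)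
    (hX : ∀ k ∈ (KK (q := q)), iotaW v k ∈ X) :
    ∀ P ∈ (KK (q := q)), ∀ Q ∈ (KK (q := q)), iotaW v (P * Q * P⁻¹ * Q⁻¹) ∈ Y := by
  intro P hP Q hQ
  have hPG := hX P hP
  have hQG := hX Q hQ
  have hc : iotaW v P * g * (iotaW v P)⁻¹ * g⁻¹ ∈ Y :=
    mul_mem (hn _ hPG _ hg) (inv_mem hg)
  rw [comm_form] at hc
  set R : Gam q := iotaW (act g v) (secW g v * P⁻¹ * (secW g v)⁻¹) with hR
  have hcomm : Commute R (iotaW v Q) := by
    apply iotaW_commute
    · exact length_act v _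
    · exact hv
  have h2 : iotaW v P * R * (iotaW v Q * (iotaW v P * R)⁻¹ * (iotaW v Q)⁻¹) ∈ Y :=
    mul_mem hc (hn _ hQG _ (inv_mem hc))
  have h3 : iotaW v P * R * (iotaW v Q * (iotaW v P * R)⁻¹ * (iotaW v Q)⁻¹)
      = iotaW v (P * Q * P⁻¹ * Q⁻¹) := by
    have h4 : R * iotaW v Q = iotaW v Q * R := hcomm
    calc iotaW v P * R * (iotaW v Q * (iotaW v P * R)⁻¹ * (iotaW v Q)⁻¹)
        = iotaW v P * (R * iotaW v Q) * R⁻¹ * (iotaW v P)⁻¹ * (iotaW v Q)⁻¹ := by group
      _ = iotaW v P * (iotaW v Q * R) * R⁻¹ * (iotaW v P)⁻¹ * (iotaW v Q)⁻¹ := by rw [h4]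
      _ = iotaW v P * iotaW v Q * (iotaW v P)⁻¹ * (iotaW v Q)⁻¹ := by group
      _ = iotaW v (P * Q * P⁻¹ * Q⁻¹) := by simp only [map_mul, map_inv]
  rw [h3] at h2
  exact h2

theorem act_append_ne {g : Gam q} {w t : List (Fin (q + 3))} (h : act g w ≠ w) :
    act g (w ++ t) ≠ w ++ t := by
  intro h1
  rw [act_append] at h1
  exact h (List.append_inj h1 (length_act _ _)).1

/-- closed subnormal subgroups contain copies of the branching subgroup -/
theorem subnormal_supp (n : ℕ) (s : Fin (n + 1) → Subgroup (Gam q))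
    (hs : s (Fin.last n) = (GG (q := q)))
    (h : ∀ i : Fin n, IsClosed (s i.castSucc : Set (Gam q)) ∧
      ∀ g ∈ s i.succ, ∀ m ∈ s i.castSucc, g * m * g⁻¹ ∈ s i.castSucc)
    (hle : ∀ i : Fin n, s i.castSucc ≤ s i.succ) :
    ∀ i, ∀ g ∈ s i, ∀ w, act g w ≠ w → ∃ m : ℕ, ∀ t : List (Fin (q + 3)), t.length = m →
      ∀ k ∈ (KK (q := q)), iotaW (w ++ t) k ∈ s i := by
  obtain ⟨m1, hm1⟩ := exists_KL_comm (q := q)
  intro i
  induction i using Fin.reverseInduction with
  | last =>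
    intro g _ w _
    refine ⟨0, fun t _ k hk => ?_⟩
    rw [hs]
    exact KK_le_GG (iotaW_mem _ hk)
  | cast i ih =>
    intro g hg w hw
    obtain ⟨m, hm⟩ := ih g (hle i hg) w hw
    refine ⟨m + m1, fun t ht k hk => ?_⟩
    have h1 := double_comm (X := s i.succ) (Y := s i.castSucc) (h i).2 hg
      (v := w ++ t.take m) (act_append_ne hw)
      (hm (t.take m) (by rw [List.length_take, ht]; omega))
    have h2 : KL (q := q) m1 ≤ (s i.castSucc).comap (iotaW (w ++ t.take m)) := by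
      apply hm1 _ (comap_iotaW_closed _ (h i).1)
      intro P hP Q hQ
      rw [Subgroup.mem_comap]
      exact h1 P hP Q hQ
    have h3 := h2 (iotaW_mem_KL' (t.drop m) m1 (by rw [List.length_drop, ht]; omega) hk)
    rw [Subgroup.mem_comap, ← iotaW_append, List.append_assoc, List.take_append_drop] at h3
    exact h3

theorem Chain.weaken {G : Type*} [Group G] [TopologicalSpace G] {m k : ℕ} {H : Subgroup G}
    (h : Chain G m H) (hk : k ≤ m) : Chain G k H := by
  obtain ⟨n, s, a0, a1, a2, a3⟩ := h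
  exact ⟨n, s, a0, a1, a2, hk.trans a3⟩

/-- every nontrivial closed subnormal subgroup has infinite virtual length -/
theorem chain_sub (n : ℕ) (s : Fin (n + 1) → Subgroup (GG (q := q)))
    (hs : s (Fin.last n) = ⊤)
    (h : ∀ i : Fin n, IsClosed (s i.castSucc : Set (GG (q := q))) ∧ s i.castSucc ≤ s i.succ ∧
      ((s i.castSucc).subgroupOf (s i.succ)).Normal)
    (hc : IsClosed (s 0 : Set (GG (q := q)))) (hne : s 0 ≠ ⊥) (m : ℕ) :
    Chain (GG (q := q)) m (s 0) := by
  have hmapc : ∀ M : Subgroup (GG (q := q)), IsClosed (M : Set (GG (q := q))) →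
      IsClosed ((M.map (GG (q := q)).subtype : Subgroup (Gam q)) : Set (Gam q)) := by
    intro M hM
    rw [Subgroup.coe_map]
    exact (hM.isCompact.image continuous_subtype_val).isClosed
  have key := subnormal_supp n (fun i => (s i).map (GG (q := q)).subtype) (by
      show (s (Fin.last n)).map (GG (q := q)).subtype = _
      rw [hs, ← MonoidHom.range_eq_map, Subgroup.range_subtype]) (by
      intro i
      refine ⟨hmapc _ (h i).1, ?_⟩
      rintro _ ⟨g, hg, rfl⟩ _ ⟨y, hy, rfl⟩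
      refine ⟨g * y * g⁻¹, ?_, by simp⟩
      have h1 := (h i).2.2.conj_mem ⟨y, (h i).2.1 hy⟩ (by
        rw [Subgroup.mem_subgroupOf]
        exact hy) ⟨g, hg⟩
      rw [Subgroup.mem_subgroupOf] at h1
      exact h1) (by
      intro i
      exact Subgroup.map_mono (h i).2.1) 0
  obtain ⟨⟨g, hg⟩, hg0⟩ := Subgroup.ne_bot_iff_exists_ne_one.1 hne
  have hg1 : (g : Gam q) ≠ 1 := fun h => hg0 (Subtype.ext (Subtype.ext h))
  obtain ⟨w, hw⟩ := exists_moved hg1
  obtain ⟨l, hl⟩ := key g ⟨g, hg, rfl⟩ w hw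
  set u : List (Fin (q + 3)) := w ++ List.replicate l 0 with hu
  have hu1 : ∀ k ∈ (KK (q := q)), iotaW u k ∈ (s 0).map (GG (q := q)).subtype :=
    hl _ (List.length_replicate)
  -- the chain inside the copy
  have hK1 : (KK (q := q)).map (iotaW u) ≤ (GG (q := q)) := by
    rintro _ ⟨k, hk, rfl⟩
    exact KK_le_GG (iotaW_mem u hk)
  have c1 := ((chain_KK (q := q) m).map (iotaW u) (continuous_iotaW u)
    (iotaW_injective u)).restrict hK1
  have hcl : IsClosed (((KK (q := q)).map (iotaW u)).subgroupOf (GG (q := q)) :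
      Set (GG (q := q))) := by
    apply subgroupOf_closed
    rw [Subgroup.coe_map]
    exact (KK_closed.isCompact.image (continuous_iotaW u)).isClosed
  have c2 := c1.step (H' := (KL (q := q) u.length).subgroupOf (GG (q := q)) ⊓ s 0) hcl (by
      intro x hx
      rw [Subgroup.mem_subgroupOf] at hx
      obtain ⟨k, hk, hkx⟩ := hx
      refine Subgroup.mem_inf.2 ⟨?_, ?_⟩
      · rw [Subgroup.mem_subgroupOf, ← hkx]
        exact iotaW_mem_KL u hk
      · obtain ⟨y, hy, hyx⟩ := hu1 k hk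
        have : y = x := Subtype.ext (by
          rw [← hkx]
          exact hyx)
        rw [← this]
        exact hy) (by
      constructor
      rintro ⟨x, hx⟩ hx' ⟨y, hy⟩
      rw [Subgroup.mem_subgroupOf] at hx' ⊢
      rw [Subgroup.mem_subgroupOf] at hx' ⊢
      obtain ⟨k, hk, hkx⟩ := hx'
      have hy1 := (Subgroup.mem_inf.1 hy).1
      rw [Subgroup.mem_subgroupOf] at hy1
      obtain ⟨h3, h4⟩ := KL_act u hy1
      have h5 := conj_iotaW u (y : Gam q) k
      rw [h3] at h5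
      refine ⟨_, KK_conj (KK_le_GG h4) hk, ?_⟩
      rw [← h5, hkx]
      rfl)
  have c3 := c2.weaken (Nat.le_add_right _ _)
  have c4 := c3.step (H' := s 0) (by
      rw [Subgroup.coe_inf]
      exact (subgroupOf_closed (KL_closed _)).inter hc) inf_le_right (by
      constructor
      rintro ⟨x, hx⟩ hx' ⟨y, hy⟩
      rw [Subgroup.mem_subgroupOf] at hx' ⊢
      obtain ⟨h6, h7⟩ := Subgroup.mem_inf.1 hx'
      refine Subgroup.mem_inf.2 ⟨?_, ?_⟩
      · rw [Subgroup.mem_subgroupOf] at h6 ⊢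
        exact KL_conj _ y.2 h6
      · exact mul_mem (mul_mem hy hx) (inv_mem hy))
  exact c4.weaken (Nat.le_add_right _ _)

end Pool.Agent.Lib.MP_5d0ca0_al.Ins
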