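import Mathlib

set_option autoImplicit false
open scoped Topology Pointwise

namespace Pool.Agent.Lib.MP_5d0ca0_al.Ins

/-- portraits of automorphisms of the rooted tree of degree q + 3 whose local actions are powers
of a fixed cyclic permutation -/
def Gam (q : ℕ) : Type := List (Fin (q + 3)) → Fin (q + 3)

namespace Gam

variable {q : ℕ}

instance : TopologicalSpace (Gam q) := inferInstanceAs (TopologicalSpace (List (Fin (q + 3)) → Fin (q + 3)))
instance : CompactSpace (Gam q) := inferInstanceAs (CompactSpace (List (Fin (q + 3)) → Fin (q + 3)))
instance : T2Space (Gam q) := inferInstanceAs (T2Space (List (Fin (q + 3)) → Fin (q + 3)))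
instance : TotallyDisconnectedSpace (Gam q) :=
  inferInstanceAs (TotallyDisconnectedSpace (List (Fin (q + 3)) → Fin (q + 3)))

/-- evaluation at a word -/
def ev (P : (Gam q)) (w : List (Fin (q + 3))) : Fin (q + 3) := P w
/-- root label -/
def root (P : (Gam q)) : Fin (q + 3) := P []
/-- section at a vertex of level one -/
def sec (P : (Gam q)) (i : Fin (q + 3)) : (Gam q) := fun w => P (i :: w)
/-- assemble -/
def mk (r : Fin (q + 3)) (s : Fin (q + 3) → (Gam q)) : (Gam q)
  | [] => r
  | i :: w => s i w

@[simp] theorem root_mk (r : Fin (q + 3)) (s : Fin (q + 3) → (Gam q)) : root (mk r s) = r := rfl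
@[simp] theorem sec_mk (r : Fin (q + 3)) (s : Fin (q + 3) → (Gam q)) (i : Fin (q + 3)) : sec (mk r s) i = s i := rfl

theorem ext_ev {P Q : (Gam q)} (h : ∀ w, ev P w = ev Q w) : P = Q := funext h

theorem continuous_ev (w : List (Fin (q + 3))) : Continuous (fun P : (Gam q) => ev P w) :=
  continuous_apply (A := fun _ : List (Fin (q + 3)) => Fin (q + 3)) w

theorem continuous_of_ev {X : Type*} [TopologicalSpace X] {f : X → (Gam q)}
    (h : ∀ w, Continuous (fun x => ev (f x) w)) : Continuous f :=
  continuous_pi (A := fun _ : List (Fin (q + 3)) => Fin (q + 3)) h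

theorem ext' {P Q : (Gam q)} (h0 : root P = root Q) (h1 : ∀ i, sec P i = sec Q i) : P = Q := by
  funext w
  cases w with
  | nil => exact h0
  | cons i w => exact congrFun (h1 i) w

/-- multiplication on words -/
def mulFun : List (Fin (q + 3)) → (Gam q) → (Gam q) → Fin (q + 3)
  | [], P, Q => P [] + Q []
  | i :: w, P, Q => mulFun w (sec P (i + Q [])) (sec Q i)

/-- inverse on words -/
def invFun : List (Fin (q + 3)) → (Gam q) → Fin (q + 3)
  | [], P => - P []
  | i :: w, P => invFun w (sec P (i - P []))

instance : Mul (Gam q) := ⟨fun P Q w => mulFun w P Q⟩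
instance : One (Gam q) := ⟨fun _ => 0⟩
instance : Inv (Gam q) := ⟨fun P w => invFun w P⟩

@[simp] theorem root_mul (P Q : (Gam q)) : root (P * Q) = root P + root Q := rfl
@[simp] theorem sec_mul (P Q : (Gam q)) (i : Fin (q + 3)) :
    sec (P * Q) i = sec P (i + root Q) * sec Q i := rfl
@[simp] theorem root_one : root (1 : Gam q) = 0 := rfl
@[simp] theorem sec_one (i : Fin (q + 3)) : sec (1 : Gam q) i = 1 := rfl
@[simp] theorem root_inv (P : (Gam q)) : root P⁻¹ = - root P := rfl
@[simp] theorem sec_inv (P : (Gam q)) (i : Fin (q + 3)) : sec P⁻¹ i = (sec P (i - root P))⁻¹ := rfl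

theorem cons_apply (P : (Gam q)) (i : Fin (q + 3)) (w : List (Fin (q + 3))) : ev P (i :: w) = ev (sec P i) w := rfl
theorem nil_apply (P : (Gam q)) : ev P [] = root P := rfl

theorem mul_assoc_apply (w : List (Fin (q + 3))) : ∀ P Q R : (Gam q),
    ev (P * Q * R) w = ev (P * (Q * R)) w := by
  induction w with
  | nil => intro P Q R; simp only [nil_apply, root_mul, add_assoc]
  | cons i w ih =>
    intro P Q R
    simp only [cons_apply, sec_mul, root_mul]
    rw [ih]
    rw [add_assoc, add_comm (root R) (root Q)]

theorem inv_mul_apply (w : List (Fin (q + 3))) : ∀ P : (Gam q), ev (P⁻¹ * P) w = ev (1 : (Gam q)) w := by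
  induction w with
  | nil => intro P; simp only [nil_apply, root_mul, root_inv, root_one, neg_add_cancel]
  | cons i w ih =>
    intro P
    simp only [cons_apply, sec_mul, sec_inv, sec_one, add_sub_cancel_right]
    exact ih _

theorem one_mul_apply (w : List (Fin (q + 3))) : ∀ P : (Gam q), ev (1 * P) w = ev P w := by
  induction w with
  | nil => intro P; simp only [nil_apply, root_mul, root_one, zero_add]
  | cons i w ih =>
    intro P
    simp only [cons_apply, sec_mul, sec_one]
    exact ih _

theorem mul_one_apply (w : List (Fin (q + 3))) : ∀ P : (Gam q), ev (P * 1) w = ev P w := by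
  induction w with
  | nil => intro P; simp only [nil_apply, root_mul, root_one, add_zero]
  | cons i w ih =>
    intro P
    simp only [cons_apply, sec_mul, sec_one, root_one, add_zero]
    exact ih _

instance : Group (Gam q) where
  mul_assoc P Q R := ext_ev fun w => mul_assoc_apply w P Q R
  one_mul P := ext_ev fun w => one_mul_apply w P
  mul_one P := ext_ev fun w => mul_one_apply w P
  inv_mul_cancel P := ext_ev fun w => inv_mul_apply w P

/-! Topology -/

theorem continuous_root : Continuous (root (q := q)) := continuous_ev []

theorem continuous_sec (i : Fin (q + 3)) : Continuous (fun P : (Gam q) => sec P i) :=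
  continuous_of_ev fun w => continuous_ev (i :: w)

theorem continuous_sec_var {X : Type*} [TopologicalSpace X] (f : X → (Gam q)) (j : X → Fin (q + 3))
    (hf : Continuous f) (hj : Continuous j) : Continuous (fun x => sec (f x) (j x)) := by
  apply continuous_of_ev
  intro w
  have h1 : Continuous (fun x : X => ((fun k : Fin (q + 3) => ev (f x) (k :: w)), j x)) := by
    refine Continuous.prodMk ?_ hj
    apply continuous_pi
    intro k
    exact (continuous_ev (k :: w)).comp hf
  have h2 : Continuous (fun z : (Fin (q + 3) → Fin (q + 3)) × Fin (q + 3) => z.1 z.2) :=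
    continuous_of_discreteTopology
  exact h2.comp h1

theorem continuous_mul_apply (w : List (Fin (q + 3))) :
    Continuous (fun p : (Gam q) × (Gam q) => ev (p.1 * p.2) w) := by
  induction w with
  | nil =>
    have : Continuous (fun p : (Gam q) × (Gam q) => root p.1 + root p.2) :=
      (continuous_of_discreteTopology (f := fun z : Fin (q + 3) × Fin (q + 3) => z.1 + z.2)).comp
        ((continuous_root.comp continuous_fst).prodMk (continuous_root.comp continuous_snd))
    exact this
  | cons i w ih =>
    have h1 : Continuous (fun p : (Gam q) × (Gam q) => (sec p.1 (i + root p.2), sec p.2 i)) := by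
      refine Continuous.prodMk ?_ ?_
      · apply continuous_sec_var _ _ continuous_fst
        exact (continuous_of_discreteTopology (f := fun z : Fin (q + 3) => i + z)).comp
          (continuous_root.comp continuous_snd)
      · exact (continuous_sec i).comp continuous_snd
    exact ih.comp h1

theorem continuous_inv_apply (w : List (Fin (q + 3))) : Continuous (fun p : (Gam q) => ev (p⁻¹) w) := by
  induction w with
  | nil =>
    exact (continuous_of_discreteTopology (f := fun z : Fin (q + 3) => - z)).comp continuous_root
  | cons i w ih =>
    have h1 : Continuous (fun p : (Gam q) => sec p (i - root p)) := by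
      apply continuous_sec_var _ _ continuous_id
      exact (continuous_of_discreteTopology (f := fun z : Fin (q + 3) => i - z)).comp continuous_root
    exact ih.comp h1

instance : IsTopologicalGroup (Gam q) where
  continuous_mul := continuous_of_ev continuous_mul_apply
  continuous_inv := continuous_of_ev continuous_inv_apply

/-! rigid embeddings -/

/-- embedding at a vertex of the first level -/
def iota (i : Fin (q + 3)) : (Gam q) →* (Gam q) where
  toFun P := mk 0 (fun j => if j = i then P else 1)
  map_one' := by
    apply ext'
    · rfl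
    · intro j; simp
  map_mul' P Q := by
    apply ext'
    · simp
    · intro j
      simp only [sec_mk, sec_mul, root_mk, add_zero]
      split_ifs <;> simp

@[simp] theorem root_iota (i : Fin (q + 3)) (P : (Gam q)) : root (iota i P) = 0 := rfl
@[simp] theorem sec_iota (i j : Fin (q + 3)) (P : (Gam q)) :
    sec (iota i P) j = if j = i then P else 1 := rfl

theorem iota_injective (i : Fin (q + 3)) : Function.Injective (iota (q := q) i) := by
  intro P Q h
  have := congrArg (fun R => sec R i) h
  simpa using this

theorem continuous_iota (i : Fin (q + 3)) : Continuous (iota i) := by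
  apply continuous_of_ev
  intro w
  cases w with
  | nil => exact continuous_const
  | cons j w =>
    by_cases h : j = i
    · have : (fun a : (Gam q) => ev (iota i a) (j :: w)) = fun a : (Gam q) => ev a w := by
        funext a
        rw [cons_apply, sec_iota, if_pos h]
      rw [this]
      exact continuous_ev w
    · have : (fun a : (Gam q) => ev (iota i a) (j :: w)) = fun a : (Gam q) => (0 : Fin (q + 3)) := by
        funext a
        rw [cons_apply, sec_iota, if_neg h]
        rfl
      rw [this]
      exact continuous_const

theorem iota_commute {i j : Fin (q + 3)} (h : i ≠ j) (P Q : (Gam q)) : Commute (iota i P) (iota j Q) := by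
  apply ext'
  · simp
  · intro k
    simp only [sec_mul, root_iota, add_zero, sec_iota]
    by_cases h1 : k = i
    · by_cases h2 : k = j
      · exact absurd (h1.symm.trans h2) h
      · simp [h1, h]
    · simp [h1]

theorem conj_iota (g : (Gam q)) (i : Fin (q + 3)) (P : (Gam q)) :
    g * iota i P * g⁻¹ = iota (i + root g) (sec g i * P * (sec g i)⁻¹) := by
  apply ext'
  · simp
  · intro j
    simp only [sec_mul, root_inv, root_iota, add_zero, sec_inv, sec_iota]
    have h0 : j + - root g = j - root g := by rw [sub_eq_add_neg]
    rw [h0]
    by_cases h : j - root g = i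
    · have h2 : j = i + root g := by rw [← h]; simp
      rw [if_pos h, if_pos h2, h]
    · have h2 : j ≠ i + root g := by
        intro h3
        apply h
        rw [h3]; simp
      rw [if_neg h, if_neg h2]
      simp

/-- action on words -/
def act : (Gam q) → List (Fin (q + 3)) → List (Fin (q + 3))
  | _, [] => []
  | g, i :: v => (i + root g) :: act (sec g i) v

/-- section at a word -/
def secW : (Gam q) → List (Fin (q + 3)) → (Gam q)
  | g, [] => g
  | g, i :: v => secW (sec g i) v

/-- embedding at a word -/
def iotaW : List (Fin (q + 3)) → ((Gam q) →* (Gam q))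
  | [] => MonoidHom.id (Gam q)
  | i :: v => (iota i).comp (iotaW v)

@[simp] theorem iotaW_nil (P : (Gam q)) : iotaW [] P = P := rfl
@[simp] theorem iotaW_cons (i : Fin (q + 3)) (v : List (Fin (q + 3))) (P : (Gam q)) :
    iotaW (i :: v) P = iota i (iotaW v P) := rfl

theorem iotaW_append (u v : List (Fin (q + 3))) (P : (Gam q)) :
    iotaW (u ++ v) P = iotaW u (iotaW v P) := by
  induction u with
  | nil => rfl
  | cons i u ih => simp only [List.cons_append, iotaW_cons, ih]

theorem iotaW_injective (v : List (Fin (q + 3))) : Function.Injective (iotaW v) := by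
  induction v with
  | nil => exact Function.injective_id
  | cons i v ih => exact (iota_injective i).comp ih

theorem continuous_iotaW (v : List (Fin (q + 3))) : Continuous (iotaW v) := by
  induction v with
  | nil => exact continuous_id
  | cons i v ih => exact (continuous_iota i).comp ih

theorem length_act (v : List (Fin (q + 3))) : ∀ g : (Gam q), (act g v).length = v.length := by
  induction v with
  | nil => intro g; rfl
  | cons i v ih => intro g; simp only [act, List.length_cons, ih]

theorem act_append (v t : List (Fin (q + 3))) : ∀ g : (Gam q),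
    act g (v ++ t) = act g v ++ act (secW g v) t := by
  induction v with
  | nil => intro g; rfl
  | cons i v ih => intro g; simp only [List.cons_append, act, secW, ih]

theorem conj_iotaW (v : List (Fin (q + 3))) : ∀ (g P : (Gam q)),
    g * iotaW v P * g⁻¹ = iotaW (act g v) (secW g v * P * (secW g v)⁻¹) := by
  induction v with
  | nil => intro g P; rfl
  | cons i v ih =>
    intro g P
    simp only [iotaW_cons, act, secW]
    rw [conj_iota, ih]

theorem iotaW_commute (u : List (Fin (q + 3))) : ∀ (v : List (Fin (q + 3))) (_ : u.length = v.length)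
    (_ : u ≠ v) (P Q : (Gam q)), Commute (iotaW u P) (iotaW v Q) := by
  induction u with
  | nil =>
    intro v hl hne P Q
    simp only [List.length_nil] at hl
    exact absurd (List.eq_nil_of_length_eq_zero hl.symm).symm hne
  | cons i u ih =>
    intro v hl hne P Q
    cases v with
    | nil => simp at hl
    | cons j v =>
      simp only [iotaW_cons]
      by_cases hij : i = j
      · subst hij
        have hne' : u ≠ v := fun h => hne (by rw [h])
        have hl' : u.length = v.length := by simpa using hl
        exact (ih v hl' hne' P Q).map (iota i)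
      · exact iota_commute hij _ _

theorem exists_moved {g : (Gam q)} (hg : g ≠ 1) : ∃ v, act g v ≠ v := by
  have h1 : ∃ w, ev g w ≠ 0 := by
    by_contra h
    push Not at h
    exact hg (ext_ev h)
  obtain ⟨w, hw⟩ := h1
  have : ∀ (w : List (Fin (q + 3))) (g : (Gam q)), ev g w ≠ 0 → ∃ v, act g v ≠ v := by
    intro w
    induction w with
    | nil =>
      intro g hg
      refine ⟨[0], ?_⟩
      simp only [act]
      intro h
      have h2 := (List.cons.inj h).1
      apply hg
      rw [nil_apply]
      simpa using h2
    | cons i w ih =>
      intro g hg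
      obtain ⟨v, hv⟩ := ih (sec g i) hg
      refine ⟨i :: v, ?_⟩
      simp only [act]
      intro h
      exact hv (List.cons.inj h).2
  exact this w g hw

/-! level stabilisers -/

theorem iotaW_apply_short (v : List (Fin (q + 3))) : ∀ (w : List (Fin (q + 3))) (P : (Gam q)),
    w.length < v.length → ev (iotaW v P) w = 0 := by
  induction v with
  | nil => intro w P h; simp at h
  | cons i v ih =>
    intro w P h
    cases w with
    | nil => rfl
    | cons j w =>
      rw [iotaW_cons, cons_apply, sec_iota]
      split_ifs with hj
      · apply ih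
        simpa using h
      · rfl

theorem exists_level {U : Set (Gam q)} (hU : IsOpen U) (h1 : (1 : (Gam q)) ∈ U) :
    ∃ m : ℕ, ∀ P : (Gam q), (∀ w : List (Fin (q + 3)), w.length < m → ev P w = 0) → P ∈ U := by
  have h2 := isOpen_pi_iff.1 (show IsOpen (X := List (Fin (q + 3)) → Fin (q + 3)) U from hU)
    (fun _ => 0) h1
  obtain ⟨I, t, ht, hIU⟩ := h2
  refine ⟨I.sup List.length + 1, ?_⟩
  intro P hP
  apply hIU
  intro w hw
  have h3 : ev P w = 0 := hP w (Nat.lt_succ_of_le (Finset.le_sup (f := List.length) hw))
  have h4 := (ht w hw).2
  show ev P w ∈ t w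
  rw [h3]
  exact h4

theorem pow_root (P : (Gam q)) (n : ℕ) : root (P ^ n) = n • root P := by
  induction n with
  | zero => simp
  | succ n ih => rw [pow_succ, root_mul, ih, succ_nsmul]

theorem pow_sec {P : (Gam q)} (hP : root P = 0) (i : Fin (q + 3)) (n : ℕ) :
    sec (P ^ n) i = (sec P i) ^ n := by
  induction n with
  | zero => simp
  | succ n ih => rw [pow_succ, sec_mul, hP, add_zero, ih, pow_succ]

theorem q_nsmul (r : Fin (q + 3)) : (q + 3) • r = 0 := by
  have h := card_nsmul_eq_zero (G := Fin (q + 3)) (x := r)
  rwa [Fintype.card_fin] at h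

theorem pow_level (m : ℕ) : ∀ (P : (Gam q)) (w : List (Fin (q + 3))), w.length < m →
    ev (P ^ ((q + 3) ^ m)) w = 0 := by
  induction m with
  | zero => intro P w h; simp at h
  | succ m ih =>
    intro P w h
    have h1 : P ^ ((q + 3) ^ (m + 1)) = (P ^ (q + 3)) ^ ((q + 3) ^ m) := by
      rw [← pow_mul, pow_succ, mul_comm]
    have h2 : root (P ^ (q + 3)) = 0 := by rw [pow_root, q_nsmul]
    rw [h1]
    cases w with
    | nil => rw [nil_apply, pow_root, h2, nsmul_zero]
    | cons i w =>
      rw [cons_apply, pow_sec h2]
      apply ih
      simpa using h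

end Gam

end Pool.Agent.Lib.MP_5d0ca0_al.Ins
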